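import Mathlib
import Pool.Agent.Q256.UP.InC
import Pool.Agent.Q256.VT.Fin

set_option autoImplicit false

/-!
Campana points of random C-pairs.
-/

namespace Pool.Agent.Q256.UC

open Finset MvPolynomial Pool.Agent.Q256.CI Pool.Agent.Q256.UP
open Pool.Agent.H813R3.Voj (rho rho_pos)
open Pool.Agent.Q256.VT (card_tup rho_pow_le Tup)

/-- the value `v` of the equation of a boundary divisor of multiplicity `m` (`0` stands for `∞`)
is allowed. -/
def Full (S : Finset ℕ) (m : ℕ) (v : ℤ) : Prop :=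
  v ≠ 0 ∧ ∀ p : ℕ, p.Prime → p ∉ S → (p : ℤ) ∣ v → m ≠ 0 ∧ (p : ℤ) ^ m ∣ v

/-- `1 / m`. -/
noncomputable def inv (m : ℕ) : ℝ := if m = 0 then 0 else 1 / (m : ℝ)

theorem inv_nonneg (m : ℕ) : 0 ≤ inv m := by unfold inv; split_ifs <;> positivity

theorem inv_le_one (m : ℕ) : inv m ≤ 1 := by
  unfold inv
  split_ifs with h
  · norm_num
  · rw [div_le_one (by exact_mod_cast Nat.pos_of_ne_zero h)]
    exact_mod_cast Nat.one_le_iff_ne_zero.2 h

theorem rho_full (S : Finset ℕ) (m : ℕ) (v : ℤ) (V : ℕ) (hV : 1 ≤ V) (h : Full S m v)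
    (hv : |v| ≤ V) : (rho S v : ℝ) ≤ (V : ℝ) ^ (inv m) := by
  unfold inv
  have hV0 : (0 : ℝ) ≤ V := Nat.cast_nonneg _
  split_ifs with hm
  · rw [Real.rpow_zero]
    have h1 : rho S v = 1 := by
      unfold rho
      have : v.natAbs.primeFactors \ S = ∅ := by
        rw [sdiff_eq_empty_iff_subset]
        intro p hp
        by_contra hpS
        exact (h.2 p (Nat.prime_of_mem_primeFactors hp) hpS
          (Int.natCast_dvd.2 (Nat.dvd_of_mem_primeFactors hp))).1 hm
      rw [this, prod_empty]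
    rw [h1]
    norm_num
  · have hm0 : 0 < m := Nat.pos_of_ne_zero hm
    have hmr : (0 : ℝ) < m := by exact_mod_cast hm0
    have h1 := rho_pow_le S v h.1 m (fun p hp hpS hd => (h.2 p hp hpS hd).2)
    have h2 : ((rho S v : ℕ) : ℝ) ^ m ≤ V := by
      have h3 : rho S v ^ m ≤ V := by
        refine h1.trans ?_
        have h4 := Int.abs_eq_natAbs v
        omega
      exact_mod_cast h3
    have h3 : (rho S v : ℝ) = (((rho S v : ℕ) : ℝ) ^ m) ^ (1 / (m : ℝ)) := by
      rw [← Real.rpow_natCast, ← Real.rpow_mul (Nat.cast_nonneg _), mul_one_div_cancel hmr.ne',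
        Real.rpow_one]
    rw [h3]
    exact Real.rpow_le_rpow (by positivity) h2 (by positivity)

open Classical in
/-- the allowed values of absolute value at most `V`. -/
noncomputable def vals (S : Finset ℕ) (m V : ℕ) : Finset ℤ :=
  (Icc (-(V : ℤ)) V).filter (Full S m)

theorem card_vals (S : Finset ℕ) (ε : ℝ) (hε : 0 < ε) :
    ∃ C : ℝ, 1 ≤ C ∧ ∀ m V : ℕ, 1 ≤ V → (#(vals S m V) : ℝ) ≤ C * (V : ℝ) ^ (inv m + ε) := by
  classical
  obtain ⟨C, hC, h⟩ := card_tup 1 S ε hε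
  refine ⟨max C 1, le_max_right _ _, fun m V hV => ?_⟩
  have hV0 : (0 : ℝ) < V := by exact_mod_cast hV
  have h1 := h (fun _ => V) ((V : ℝ) ^ (inv m)) (fun _ => hV) (by positivity)
  have h2 : #(vals S m V) ≤ #(Tup S (fun _ : Fin 1 => V) ((V : ℝ) ^ (inv m))) := by
    refine card_le_card_of_injOn (fun v => fun _ : Fin 1 => v) ?_ ?_
    · intro v hv
      rw [mem_coe, vals, mem_filter, mem_Icc] at hv
      rw [mem_coe, Tup, mem_filter, Fintype.mem_piFinset]
      refine ⟨fun _ => mem_Icc.2 hv.1, fun _ => hv.2.1, ?_⟩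
      simp only [univ_unique, prod_const, card_singleton, pow_one]
      exact rho_full S m v V hV hv.2 (abs_le.2 hv.1)
    · intro v _ w _ hvw
      exact congrFun hvw 0
  have h3 : (#(vals S m V) : ℝ) ≤ #(Tup S (fun _ : Fin 1 => V) ((V : ℝ) ^ (inv m))) := by
    exact_mod_cast h2
  refine h3.trans (h1.trans ?_)
  simp only [univ_unique, prod_const, card_singleton, pow_one]
  rw [mul_assoc, ← Real.rpow_add hV0]
  exact mul_le_mul_of_nonneg_right (le_max_left _ _) (by positivity)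

/-- the weight `1 / m i`, zero for the equations. -/
noncomputable def wgt {r : ℕ} (E : Finset (Fin r)) (m : Fin r → ℕ) (i : Fin r) : ℝ :=
  if i ∈ E then 0 else inv (m i)

theorem wgt_nonneg {r : ℕ} (E : Finset (Fin r)) (m : Fin r → ℕ) (i : Fin r) :
    0 ≤ wgt E m i := by
  unfold wgt; split_ifs
  · exact le_rfl
  · exact inv_nonneg _

theorem wgt_le_one {r : ℕ} (E : Finset (Fin r)) (m : Fin r → ℕ) (i : Fin r) :
    wgt E m i ≤ 1 := by
  unfold wgt; split_ifs
  · norm_num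
  · exact inv_le_one _

/-- the allowed values at a point of size `q`. -/
noncomputable def AA {r : ℕ} (n : ℕ) (E : Finset (Fin r)) (S : Finset ℕ) (m d : Fin r → ℕ)
    (H q : ℕ) (i : Fin r) : Finset ℤ :=
  if i ∈ E then {0} else vals S (m i) ((n + d i).choose n * (H * q ^ d i))

/-- `y` is a point of the C-pair. -/
def IsCamp {n r : ℕ} (E : Finset (Fin r)) (S : Finset ℕ) (m : Fin r → ℕ)
    (F : Fin r → MvPolynomial (Fin (n + 1)) ℤ) (y : Fin (n + 1) → ℤ) : Prop :=
  IsPrim y ∧ (∀ i, i ∈ E → eval y (F i) = 0) ∧ ∀ i, i ∉ E → Full S (m i) (eval y (F i))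

theorem camp_mem {n r : ℕ} (E : Finset (Fin r)) (S : Finset ℕ) (m d : Fin r → ℕ) (H q : ℕ)
    (F : Fin r → MvPolynomial (Fin (n + 1)) ℤ) (hF : F ∈ SysBox n d H) (y : Fin (n + 1) → ℤ)
    (hy : ∀ k, |y k| ≤ q) (h : IsCamp E S m F y) (i : Fin r) :
    eval y (F i) ∈ AA n E S m d H q i := by
  classical
  unfold AA
  split_ifs with hi
  · rw [mem_singleton]; exact h.2.1 i hi
  · rw [vals, mem_filter, mem_Icc, ← abs_le]
    refine ⟨?_, h.2.2 i hi⟩
    have := size (F i) (hF i) y q (by positivity) hy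
    push_cast
    exact this

/-- the number of the allowed values. -/
theorem card_AA {n r : ℕ} (E : Finset (Fin r)) (S : Finset ℕ) (m d : Fin r → ℕ)
    (ε : ℝ) (hε : 0 < ε) :
    ∃ C : ℝ, 1 ≤ C ∧ ∀ H q : ℕ, 1 ≤ H → 1 ≤ q →
      (∏ i, (#(AA n E S m d H q i) : ℝ)) ≤ C * (H : ℝ) ^ (∑ i, wgt E m i + r * ε) *
        (q : ℝ) ^ (∑ i, (d i : ℝ) * wgt E m i + (∑ i, (d i : ℝ)) * ε) := by
  classical
  obtain ⟨C, hC, hc⟩ := card_vals S ε hε
  refine ⟨∏ i, (C * ((n + d i).choose n : ℝ) ^ (wgt E m i + ε)), ?_, fun H q hH hq => ?_⟩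
  · have h0 : ∏ _i : Fin r, (1 : ℝ) ≤ ∏ i, (C * ((n + d i).choose n : ℝ) ^ (wgt E m i + ε)) := by
      refine prod_le_prod (fun i _ => zero_le_one) (fun i _ => ?_)
      have h1 : (1 : ℝ) ≤ ((n + d i).choose n : ℝ) := by exact_mod_cast one_le_N n (d i)
      have h2 : (1 : ℝ) ≤ ((n + d i).choose n : ℝ) ^ (wgt E m i + ε) :=
        Real.one_le_rpow h1 (by have := wgt_nonneg E m i; linarith)
      nlinarith
    rwa [prod_const_one] at h0
  · have hH0 : (0 : ℝ) < H := by exact_mod_cast hH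
    have hq0 : (0 : ℝ) < q := by exact_mod_cast hq
    have hH1 : (1 : ℝ) ≤ H := by exact_mod_cast hH
    have hq1 : (1 : ℝ) ≤ q := by exact_mod_cast hq
    have h1 : ∀ i ∈ (univ : Finset (Fin r)), (#(AA n E S m d H q i) : ℝ) ≤
        (C * ((n + d i).choose n : ℝ) ^ (wgt E m i + ε)) *
          ((H : ℝ) ^ (wgt E m i + ε) * (q : ℝ) ^ ((d i : ℝ) * wgt E m i + (d i : ℝ) * ε)) := by
      intro i _
      have hN1 : (1 : ℝ) ≤ ((n + d i).choose n : ℝ) := by exact_mod_cast one_le_N n (d i)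
      have hw := wgt_nonneg E m i
      have e1 : (((n + d i).choose n * (H * q ^ d i) : ℕ) : ℝ) ^ (wgt E m i + ε) =
          ((n + d i).choose n : ℝ) ^ (wgt E m i + ε) * ((H : ℝ) ^ (wgt E m i + ε) *
            (q : ℝ) ^ ((d i : ℝ) * wgt E m i + (d i : ℝ) * ε)) := by
        push_cast
        rw [Real.mul_rpow (by positivity) (by positivity),
          Real.mul_rpow (by positivity) (by positivity), ← Real.rpow_natCast (q : ℝ) (d i),
          ← Real.rpow_mul hq0.le, mul_add]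
      rw [mul_assoc, ← e1]
      have hV : 1 ≤ (n + d i).choose n * (H * q ^ d i) :=
        Nat.one_le_iff_ne_zero.2 (Nat.mul_ne_zero (by have := one_le_N n (d i); omega)
          (Nat.mul_ne_zero (by omega) (pow_ne_zero _ (by omega))))
      unfold AA wgt
      split_ifs with hi
      · rw [card_singleton, Nat.cast_one, zero_add]
        have h3 : (1 : ℝ) ≤ (((n + d i).choose n * (H * q ^ d i) : ℕ) : ℝ) ^ ε :=
          Real.one_le_rpow (by exact_mod_cast hV) hε.le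
        nlinarith
      · exact hc (m i) _ hV
    refine (prod_le_prod (fun i _ => Nat.cast_nonneg _) h1).trans (le_of_eq ?_)
    have e2 : ∏ i, ((H : ℝ) ^ (wgt E m i + ε) * (q : ℝ) ^ ((d i : ℝ) * wgt E m i + (d i : ℝ) * ε)) =
        (H : ℝ) ^ (∑ i, wgt E m i + r * ε) *
        (q : ℝ) ^ (∑ i, (d i : ℝ) * wgt E m i + (∑ i, (d i : ℝ)) * ε) := by
      rw [prod_mul_distrib, ← Real.rpow_sum_of_pos hH0, ← Real.rpow_sum_of_pos hq0,
        sum_add_distrib, sum_add_distrib, sum_const, card_univ, Fintype.card_fin, nsmul_eq_mul,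
        ← sum_mul]
    have e3 : ∏ i, ((C * ((n + d i).choose n : ℝ) ^ (wgt E m i + ε)) *
        ((H : ℝ) ^ (wgt E m i + ε) * (q : ℝ) ^ ((d i : ℝ) * wgt E m i + (d i : ℝ) * ε))) =
        (∏ i, (C * ((n + d i).choose n : ℝ) ^ (wgt E m i + ε))) *
        ∏ i, ((H : ℝ) ^ (wgt E m i + ε) *
          (q : ℝ) ^ ((d i : ℝ) * wgt E m i + (d i : ℝ) * ε)) := prod_mul_distrib
    rw [e3, e2, mul_assoc]

end Pool.Agent.Q256.UC
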