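import Mathlib
import Pool.Agent.Q256.UC.Basic

set_option autoImplicit false

/-!
Campana points of random C-pairs: large points.
-/

namespace Pool.Agent.Q256.UC

open Finset MvPolynomial Pool.Agent.Q256.CI Pool.Agent.Q256.UP

/-- the points of size at most `T`. -/
def Pts {n r : ℕ} (E : Finset (Fin r)) (S : Finset ℕ) (m : Fin r → ℕ)
    (F : Fin r → MvPolynomial (Fin (n + 1)) ℤ) (T : ℕ) : Set (Fin (n + 1) → ℤ) :=
  {y | IsCamp E S m F y ∧ ∀ k, |y k| ≤ T}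

/-- systems with a point of size in `(R, T]`. -/
def Lrg {r : ℕ} (n : ℕ) (E : Finset (Fin r)) (S : Finset ℕ) (m d : Fin r → ℕ) (H R T : ℕ) :
    Set (Fin r → MvPolynomial (Fin (n + 1)) ℤ) :=
  {F | F ∈ SysBox n d H ∧ ∃ y ∈ Pts E S m F T, ∃ k, (R : ℤ) < |y k|}

/-- systems with two (different, i.e. not proportional) points of size at most `T`. -/
def Two {r : ℕ} (n : ℕ) (E : Finset (Fin r)) (S : Finset ℕ) (m d : Fin r → ℕ) (H T : ℕ) :
    Set (Fin r → MvPolynomial (Fin (n + 1)) ℤ) :=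
  {F | F ∈ SysBox n d H ∧ ∃ y ∈ Pts E S m F T, ∃ z ∈ Pts E S m F T,
    ∃ a b, y a * z b - y b * z a ≠ 0}

/-- systems with a point of size at most `T`. -/
def One {r : ℕ} (n : ℕ) (E : Finset (Fin r)) (S : Finset ℕ) (m d : Fin r → ℕ) (H T : ℕ) :
    Set (Fin r → MvPolynomial (Fin (n + 1)) ℤ) :=
  {F | F ∈ SysBox n d H ∧ (Pts E S m F T).Nonempty}

theorem lrg_bound {n r : ℕ} (E : Finset (Fin r)) (S : Finset ℕ) (m d : Fin r → ℕ) (g ε : ℝ)
    (hg : 0 < g) (hε : 0 < ε)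
    (hgt : g = ∑ i, (d i : ℝ) - (n + 1) - ∑ i, (d i : ℝ) * wgt E m i)
    (hDε : (∑ i, (d i : ℝ)) * ε ≤ g / 4) :
    ∃ C : ℝ, 0 < C ∧ ∀ H R T : ℕ, 1 ≤ H →
      (Nat.card (Lrg n E S m d H R T) : ℝ) ≤
        C * ((H : ℝ) ^ (∑ i, ((n + d i).choose n - 1)) * (H : ℝ) ^ (∑ i, wgt E m i + r * ε)) *
        (((R : ℝ) + 1) ^ (-(g / 2)) +
          (T : ℝ) ^ (n + 1 + ∑ i, (d i : ℝ) * wgt E m i + (∑ i, (d i : ℝ)) * ε) *
            ((H : ℝ) ^ (∑ i, (d i : ℝ)))⁻¹) := by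
  classical
  obtain ⟨C0, hC0, hAA⟩ := card_AA (n := n) E S m d ε hε
  have hC1 := C1_pos n d
  set w : ℝ := ∑ i, wgt E m i with hw
  set W : ℝ := ∑ i, (d i : ℝ) * wgt E m i with hW
  set D : ℝ := ∑ i, (d i : ℝ) with hD
  have hW0 : 0 ≤ W := sum_nonneg (fun i _ => mul_nonneg (Nat.cast_nonneg _) (wgt_nonneg E m i))
  have hD0 : 0 ≤ D := sum_nonneg (fun i _ => Nat.cast_nonneg _)
  have hZs : Summable (fun q : ℕ => (q : ℝ) ^ (-1 - g / 4)) :=
    Real.summable_nat_rpow.2 (by linarith)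
  set Z : ℝ := ∑' q : ℕ, (q : ℝ) ^ (-1 - g / 4) with hZ
  have hZ0 : 0 ≤ Z := tsum_nonneg (fun q => by positivity)
  set K : ℝ := ((n : ℝ) + 1) * 12 ^ (n + 1) * (C0 * C1 n d) with hK
  have hK0 : 0 < K := by positivity
  refine ⟨K * (Z + 1), by positivity, fun H R T hH => ?_⟩
  have hH0 : (0 : ℝ) < H := by exact_mod_cast hH
  set P : ℝ := (H : ℝ) ^ (∑ i, ((n + d i).choose n - 1)) * (H : ℝ) ^ (w + r * ε) with hP
  have hP0 : 0 < P := by positivity
  have h := card_le_sum (Lrg n E S m d H R T) (Ioc R T) (fun q => {F | F ∈ SysBox n d H ∧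
      ∃ (k : Fin (n + 1)) (y : Fin (n + 1) → ℤ), IsPrim y ∧
      |y k| = q ∧ (∀ j, |y j| ≤ q) ∧ (∀ j ∈ (∅ : Finset (Fin (n + 1))), |y j| = 1) ∧
        ∀ i, eval y (F i) ∈ AA n E S m d H q i})
      (fun i _ => (finite_sys n d H).subset (fun F hF => hF.1)) (by
        rintro F ⟨hF, y, ⟨hc, hT⟩, ⟨k0, hk0⟩⟩
        obtain ⟨k, -, hk⟩ := exists_max_image (univ : Finset (Fin (n + 1))) (fun k => |y k|)
          ⟨0, mem_univ _⟩
        have h1 : |y k| = ((y k).natAbs : ℤ) := Int.abs_eq_natAbs _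
        have h2 := hk k0 (mem_univ _)
        have h3 := hT k
        have h4 : ∀ j, |y j| ≤ ((y k).natAbs : ℤ) := fun j => by
          rw [← h1]; exact hk j (mem_univ _)
        refine ⟨(y k).natAbs, ?_, hF, k, y, hc.1, h1, h4,
          fun j hj => absurd hj (notMem_empty _), fun i => ?_⟩
        · rw [h1] at h2 h3
          rw [mem_Ioc]
          constructor
          · have : (R : ℤ) < ((y k).natAbs : ℤ) := lt_of_lt_of_le hk0 h2
            exact_mod_cast this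
          · exact_mod_cast h3
        · exact camp_mem E S m d H _ F hF y h4 hc i)
  refine h.trans ?_
  have h1 : ∀ q ∈ Ioc R T, (Nat.card {F | F ∈ SysBox n d H ∧
      ∃ (k : Fin (n + 1)) (y : Fin (n + 1) → ℤ), IsPrim y ∧
      |y k| = q ∧ (∀ j, |y j| ≤ q) ∧ (∀ j ∈ (∅ : Finset (Fin (n + 1))), |y j| = 1) ∧
        ∀ i, eval y (F i) ∈ AA n E S m d H q i} : ℝ) ≤
      K * P * (((R : ℝ) + 1) ^ (-(g / 2)) * (q : ℝ) ^ (-1 - g / 4) +
        (T : ℝ) ^ (n + W + D * ε) * ((H : ℝ) ^ D)⁻¹) := by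
    intro q hq
    rw [mem_Ioc] at hq
    have hq1 : 1 ≤ q := by omega
    have hq1r : (1 : ℝ) ≤ q := by exact_mod_cast hq1
    have hq0 : (0 : ℝ) < q := by linarith
    have hRq : (R : ℝ) + 1 ≤ q := by exact_mod_cast hq.1
    have hqT : (q : ℝ) ≤ T := by exact_mod_cast hq.2
    have e0 : ((∑ i, d i : ℕ) : ℝ) = D := by push_cast; rfl
    refine (sphere_int ∅ (AA n E S m d H q) d H q hH hq1).trans ?_
    have h2 := hAA H q hH hq1
    unfold K1
    rw [card_empty, Nat.sub_zero, ← Real.rpow_natCast (q : ℝ) (∑ i, d i),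
      ← Real.rpow_natCast (H : ℝ) (∑ i, d i), e0]
    set B : ℝ := ((q : ℝ) ^ D)⁻¹ + ((H : ℝ) ^ D)⁻¹ with hB
    have hB0 : 0 ≤ B := by positivity
    have h3 : ((n : ℝ) + 1) * 12 ^ (n + 1) * (q : ℝ) ^ n *
        ((∏ i, (#(AA n E S m d H q i) : ℝ)) * C1 n d *
          (H : ℝ) ^ (∑ i, ((n + d i).choose n - 1)) * B) ≤
        ((n : ℝ) + 1) * 12 ^ (n + 1) * (q : ℝ) ^ n *
        ((C0 * (H : ℝ) ^ (w + r * ε) * (q : ℝ) ^ (W + D * ε)) * C1 n d *
          (H : ℝ) ^ (∑ i, ((n + d i).choose n - 1)) * B) := by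
      refine mul_le_mul_of_nonneg_left ?_ (by positivity)
      refine mul_le_mul_of_nonneg_right ?_ hB0
      refine mul_le_mul_of_nonneg_right ?_ (by positivity)
      exact mul_le_mul_of_nonneg_right h2 hC1.le
    refine h3.trans ?_
    have h4 : (q : ℝ) ^ n * (q : ℝ) ^ (W + D * ε) * B ≤
        ((R : ℝ) + 1) ^ (-(g / 2)) * (q : ℝ) ^ (-1 - g / 4) +
        (T : ℝ) ^ (n + W + D * ε) * ((H : ℝ) ^ D)⁻¹ := by
      have e1 : (q : ℝ) ^ n * (q : ℝ) ^ (W + D * ε) = (q : ℝ) ^ (n + W + D * ε) := by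
        rw [← Real.rpow_natCast (q : ℝ) n, ← Real.rpow_add hq0, add_assoc]
      rw [e1, hB, mul_add]
      refine add_le_add ?_ ?_
      · rw [← Real.rpow_neg hq0.le, ← Real.rpow_add hq0]
        have h5 : (q : ℝ) ^ ((n : ℝ) + W + D * ε + -D) ≤
            (q : ℝ) ^ (-(g / 2)) * (q : ℝ) ^ (-1 - g / 4) := by
          rw [← Real.rpow_add hq0]
          refine Real.rpow_le_rpow_of_exponent_le hq1r ?_
          linarith
        refine h5.trans (mul_le_mul_of_nonneg_right ?_ (by positivity))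
        exact Real.rpow_le_rpow_of_nonpos (by positivity) hRq (by linarith)
      · refine mul_le_mul_of_nonneg_right ?_ (by positivity)
        exact Real.rpow_le_rpow hq0.le hqT (by positivity)
    calc _ = K * P * ((q : ℝ) ^ n * (q : ℝ) ^ (W + D * ε) * B) := by rw [hK, hP]; ring
      _ ≤ _ := mul_le_mul_of_nonneg_left h4 (by positivity)
  refine (sum_le_sum h1).trans ?_
  rw [← mul_sum, sum_add_distrib, ← mul_sum, sum_const, nsmul_eq_mul]
  have h3 : (#(Ioc R T) : ℝ) ≤ T := by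
    rw [Nat.card_Ioc]; exact_mod_cast Nat.sub_le _ _
  have h4 : ∑ q ∈ Ioc R T, (q : ℝ) ^ (-1 - g / 4) ≤ Z :=
    hZs.sum_le_tsum _ (fun q _ => by positivity)
  have h5 : (#(Ioc R T) : ℝ) * ((T : ℝ) ^ (n + W + D * ε) * ((H : ℝ) ^ D)⁻¹) ≤
      (T : ℝ) ^ (n + 1 + W + D * ε) * ((H : ℝ) ^ D)⁻¹ := by
    rcases Nat.eq_zero_or_pos T with hT0 | hT0
    · subst hT0
      have : Ioc R 0 = ∅ := Ioc_eq_empty (by omega)
      rw [this, card_empty, Nat.cast_zero, zero_mul]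
      positivity
    · have hT0r : (0 : ℝ) < T := by exact_mod_cast hT0
      rw [← mul_assoc]
      refine mul_le_mul_of_nonneg_right ?_ (by positivity)
      have e1 : (T : ℝ) ^ (n + 1 + W + D * ε) = T * (T : ℝ) ^ (n + W + D * ε) := by
        have : (n : ℝ) + 1 + W + D * ε = 1 + (n + W + D * ε) := by ring
        rw [this, Real.rpow_add hT0r, Real.rpow_one]
      rw [e1]
      exact mul_le_mul_of_nonneg_right h3 (by positivity)
  have hR0 : (0 : ℝ) ≤ ((R : ℝ) + 1) ^ (-(g / 2)) := by positivity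
  have hT0 : (0 : ℝ) ≤ (T : ℝ) ^ (n + 1 + W + D * ε) * ((H : ℝ) ^ D)⁻¹ := by positivity
  calc K * P * (((R : ℝ) + 1) ^ (-(g / 2)) * ∑ q ∈ Ioc R T, (q : ℝ) ^ (-1 - g / 4) +
        (#(Ioc R T) : ℝ) * ((T : ℝ) ^ (n + W + D * ε) * ((H : ℝ) ^ D)⁻¹))
      ≤ K * P * (((R : ℝ) + 1) ^ (-(g / 2)) * (Z + 1) +
        (Z + 1) * ((T : ℝ) ^ (n + 1 + W + D * ε) * ((H : ℝ) ^ D)⁻¹)) := by
        refine mul_le_mul_of_nonneg_left ?_ (by positivity)
        refine add_le_add (mul_le_mul_of_nonneg_left (by linarith) hR0) (h5.trans ?_)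
        exact le_mul_of_one_le_left hT0 (by linarith)
    _ = _ := by ring

end Pool.Agent.Q256.UC
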