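import Mathlib
import Pool.Agent.Q256.UC.Tail

set_option autoImplicit false

/-!
Campana points of random C-pairs: two points, the lower bound.
-/

namespace Pool.Agent.Q256.UC

open Finset MvPolynomial Pool.Agent.Q256.CI Pool.Agent.Q256.UP

theorem two_small {n r : ℕ} (E : Finset (Fin r)) (S : Finset ℕ) (m d : Fin r → ℕ)
    (hd : ∀ i, 1 ≤ d i) (ε : ℝ) (hε : 0 < ε) :
    ∃ C : ℝ, 0 < C ∧ ∀ H R : ℕ, 1 ≤ H → 1 ≤ R →
      (Nat.card (Two n E S m d H R) : ℝ) ≤
        C * ((H : ℝ) ^ (∑ i, ((n + d i).choose n - 1)) * ((H : ℝ) ^ r)⁻¹) *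
        ((H : ℝ) ^ (∑ i, wgt E m i + r * ε) *
          (R : ℝ) ^ (n + 1 + ∑ i, (d i : ℝ) * wgt E m i + (∑ i, (d i : ℝ)) * ε)) ^ 2 := by
  classical
  obtain ⟨C0, hC0, hAA⟩ := card_AA (n := n) E S m d ε hε
  have h7 : 0 < ∏ i, (7 : ℝ) ^ (n + d i).choose n := prod_pos (fun i _ => by positivity)
  refine ⟨9 ^ (n + 1) * (C0 ^ 2 * ∏ i, (7 : ℝ) ^ (n + d i).choose n), by positivity,
    fun H R hH hR => ?_⟩
  have hR1 : (1 : ℝ) ≤ R := by exact_mod_cast hR
  have hR0 : (0 : ℝ) < R := by linarith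
  have hH0 : (0 : ℝ) < H := by exact_mod_cast hH
  let I : Finset (Fin (n + 1) → ℤ) := Fintype.piFinset (fun _ => Icc (-(R : ℤ)) R)
  have hI : (#I : ℝ) ≤ (3 * R) ^ (n + 1) := by
    have h1 : #I = (2 * R + 1) ^ (n + 1) := by
      simp only [I]
      rw [Fintype.card_piFinset, prod_const, card_univ, Fintype.card_fin, Int.card_Icc]
      congr 1
      omega
    rw [h1]
    push_cast
    exact pow_le_pow_left₀ (by positivity) (by linarith) _
  let V : (Fin (n + 1) → ℤ) × (Fin (n + 1) → ℤ) → Set (Fin r → MvPolynomial (Fin (n + 1)) ℤ) :=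
    fun i => {F | F ∈ SysBox n d H ∧ (∃ a b, i.1 a * i.2 b - i.1 b * i.2 a ≠ 0) ∧
      (∀ j, eval i.1 (F j) ∈ AA n E S m d H R j) ∧ ∀ j, eval i.2 (F j) ∈ AA n E S m d H R j}
  have h2 := card_le_sum (Two n E S m d H R) (I ×ˢ I) V
    (fun i _ => (finite_sys n d H).subset (fun F hF => hF.1)) (by
      rintro F ⟨hF, y, hy, z, hz, hne⟩
      refine ⟨(y, z), mem_product.2 ⟨?_, ?_⟩, hF, hne,
        fun j => camp_mem E S m d H R F hF y hy.2 hy.1 j,
        fun j => camp_mem E S m d H R F hF z hz.2 hz.1 j⟩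
      · simp only [I, Fintype.mem_piFinset, mem_Icc]
        exact fun j => abs_le.1 (hy.2 j)
      · simp only [I, Fintype.mem_piFinset, mem_Icc]
        exact fun j => abs_le.1 (hz.2 j))
  set M : ℝ := (H : ℝ) ^ (∑ i, ((n + d i).choose n - 1)) with hM
  set w : ℝ := ∑ i, wgt E m i with hw
  set W : ℝ := ∑ i, (d i : ℝ) * wgt E m i with hW
  set D : ℝ := ∑ i, (d i : ℝ) with hD
  set P7 : ℝ := ∏ i, (7 : ℝ) ^ (n + d i).choose n with hP7
  set B : ℝ := C0 * (H : ℝ) ^ (w + r * ε) * (R : ℝ) ^ (W + D * ε) with hB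
  have hB0 : 0 < B := by positivity
  have h3 : ∀ i ∈ I ×ˢ I, (Nat.card (V i) : ℝ) ≤ (B ^ 2 * P7) * M * ((H : ℝ) ^ r)⁻¹ := by
    rintro ⟨y, z⟩ _
    by_cases hne : ∃ a b, y a * z b - y b * z a ≠ 0
    · have h5 := real_two_sysA d hd (AA n E S m d H R) y z hne H hH
      have h6 := hAA H R hH hR
      have h4 : Nat.card (V (y, z)) ≤ Nat.card
          {F | F ∈ SysBox n d H ∧ (∀ i, eval y (F i) ∈ AA n E S m d H R i) ∧
            ∀ i, eval z (F i) ∈ AA n E S m d H R i} := by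
        simp only [Nat.card_coe_set_eq]
        exact Set.ncard_le_ncard (fun F hF => ⟨hF.1, hF.2.2⟩)
          ((finite_sys n d H).subset (fun F hF => hF.1))
      have h4r : (Nat.card (V (y, z)) : ℝ) ≤ Nat.card
          {F | F ∈ SysBox n d H ∧ (∀ i, eval y (F i) ∈ AA n E S m d H R i) ∧
            ∀ i, eval z (F i) ∈ AA n E S m d H R i} := by exact_mod_cast h4
      refine h4r.trans (h5.trans ?_)
      have h7' : (∏ i, (#(AA n E S m d H R i) : ℝ)) ^ 2 ≤ B ^ 2 :=
        pow_le_pow_left₀ (prod_nonneg (fun i _ => Nat.cast_nonneg _)) h6 2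
      refine mul_le_mul_of_nonneg_right (mul_le_mul_of_nonneg_right
        (mul_le_mul_of_nonneg_right h7' h7.le) (by positivity)) (by positivity)
    · have hem : V (y, z) = ∅ := by
        rw [Set.eq_empty_iff_forall_notMem]
        rintro F ⟨_, h, _⟩
        exact hne h
      rw [hem]
      have h0 : (Nat.card (∅ : Set (Fin r → MvPolynomial (Fin (n + 1)) ℤ)) : ℝ) = 0 := by simp
      rw [h0]
      positivity
  refine h2.trans ((sum_le_sum h3).trans ?_)
  rw [sum_const, nsmul_eq_mul, card_product]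
  have hII : ((#I * #I : ℕ) : ℝ) ≤ 9 ^ (n + 1) * ((R : ℝ) ^ (n + 1)) ^ 2 := by
    push_cast
    calc (#I : ℝ) * #I ≤ (3 * R) ^ (n + 1) * (3 * R) ^ (n + 1) :=
          mul_le_mul hI hI (Nat.cast_nonneg _) (by positivity)
      _ = _ := by
          rw [mul_pow]
          have : (9 : ℝ) ^ (n + 1) = 3 ^ (n + 1) * 3 ^ (n + 1) := by rw [← mul_pow]; norm_num
          rw [this]; ring
  have e1 : (R : ℝ) ^ (n + 1 + W + D * ε) = (R : ℝ) ^ (n + 1) * (R : ℝ) ^ (W + D * ε) := by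
    rw [← Real.rpow_natCast (R : ℝ) (n + 1), ← Real.rpow_add hR0]
    congr 1
    push_cast
    ring
  rw [e1]
  calc ((#I * #I : ℕ) : ℝ) * ((B ^ 2 * P7) * M * ((H : ℝ) ^ r)⁻¹) ≤
        (9 ^ (n + 1) * ((R : ℝ) ^ (n + 1)) ^ 2) * ((B ^ 2 * P7) * M * ((H : ℝ) ^ r)⁻¹) :=
        mul_le_mul_of_nonneg_right hII (by positivity)
    _ = _ := by rw [hB]; ring

/-- the number of forms with value in a finite set. -/
theorem card_vanA (n d H : ℕ) (y : Fin (n + 1) → ℤ) (A : Finset ℤ) :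
    Nat.card {F | F ∈ Box n d H ∧ eval y F ∈ A} = ∑ a ∈ A, Nat.card (VanV n d H y a) := by
  classical
  have hfin := finite_box n d H
  have h0 : Nat.card {F | F ∈ Box n d H ∧ eval y F ∈ A} =
      #(hfin.toFinset.filter (fun F => eval y F ∈ A)) := by
    rw [Nat.card_coe_set_eq, ← Set.ncard_coe_finset]
    congr 1
    ext F
    simp
  have h1 : ∀ a ∈ A, Nat.card (VanV n d H y a) =
      #(hfin.toFinset.filter (fun F => eval y F = a)) := by
    intro a _
    rw [Nat.card_coe_set_eq, ← Set.ncard_coe_finset]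
    congr 1
    ext F
    simp [VanV]
  rw [h0, sum_congr rfl h1, card_eq_sum_card_fiberwise (f := fun F => eval y F) (t := A)
    (by
      intro F hF
      rw [mem_coe, mem_filter] at hF
      exact hF.2)]
  refine sum_congr rfl (fun a ha => ?_)
  rw [filter_filter]
  congr 1
  ext F
  simp only [mem_filter]
  constructor
  · rintro ⟨h1, h2, h3⟩; exact ⟨h1, h3⟩
  · rintro ⟨h1, h2⟩; exact ⟨h1, by rw [h2]; exact ha, h2⟩

/-- enough allowed values. -/
theorem many_vals (S : Finset ℕ) (m H : ℕ) (hH : 2 ≤ H) :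
    ∃ A : Finset ℤ, (∀ a ∈ A, Full S m a ∧ 2 * |a| ≤ H) ∧
      1 / 4 * (H : ℝ) ^ (inv m) ≤ #A := by
  classical
  have hHr : (2 : ℝ) ≤ H := by exact_mod_cast hH
  have hone : Full S m 1 := by
    refine ⟨one_ne_zero, fun p hp _ hd => ?_⟩
    have := Int.natCast_dvd.1 hd
    simp at this
    exact absurd this hp.one_lt.ne'
  by_cases hm : m = 0
  · refine ⟨{1}, fun a ha => ?_, ?_⟩
    · rw [mem_singleton] at ha
      subst ha
      exact ⟨hone, by simp; exact_mod_cast hH⟩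
    · unfold inv
      rw [if_pos hm, Real.rpow_zero, card_singleton]
      norm_num
  · have hm0 : 0 < m := Nat.pos_of_ne_zero hm
    have hmr : (1 : ℝ) ≤ m := by exact_mod_cast hm0
    set x : ℝ := ((H : ℝ) / 2) ^ (1 / (m : ℝ)) with hx
    have hx1 : 1 ≤ x := Real.one_le_rpow (by linarith) (by positivity)
    set k : ℕ := ⌊x⌋₊ with hk
    have hk1 : (k : ℝ) ≤ x := Nat.floor_le (by linarith)
    have hk2 : x < k + 1 := Nat.lt_floor_add_one x
    have hk3 : 1 ≤ k := Nat.le_floor (by exact_mod_cast hx1)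
    have hk3r : (1 : ℝ) ≤ k := by exact_mod_cast hk3
    refine ⟨(Icc 1 k).image (fun j : ℕ => (j : ℤ) ^ m), fun a ha => ?_, ?_⟩
    · obtain ⟨j, hj, rfl⟩ := mem_image.1 ha
      rw [mem_Icc] at hj
      refine ⟨⟨pow_ne_zero _ (by exact_mod_cast (by omega : j ≠ 0)), fun p hp _ hd => ⟨hm, ?_⟩⟩, ?_⟩
      · exact pow_dvd_pow_of_dvd (Int.Prime.dvd_pow' hp hd) m
      · rw [abs_of_nonneg (by positivity)]
        have h1 : ((j : ℝ)) ^ m ≤ (H : ℝ) / 2 := by
          have h2 : (j : ℝ) ≤ x := le_trans (by exact_mod_cast hj.2) hk1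
          calc ((j : ℝ)) ^ m ≤ x ^ m := pow_le_pow_left₀ (Nat.cast_nonneg _) h2 _
            _ = (H : ℝ) / 2 := by
                rw [hx, ← Real.rpow_natCast, ← Real.rpow_mul (by positivity),
                  one_div_mul_cancel (by positivity), Real.rpow_one]
        have h2 : 2 * (j : ℝ) ^ m ≤ H := by linarith
        exact_mod_cast h2
    · rw [card_image_of_injOn, Nat.card_Icc, Nat.add_sub_cancel]
      · unfold inv
        rw [if_neg hm]
        have h1 : (H : ℝ) ^ (1 / (m : ℝ)) ≤ 2 * x := by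
          rw [hx, Real.div_rpow (by positivity) (by norm_num)]
          have h2 : (2 : ℝ) ^ (1 / (m : ℝ)) ≤ 2 := by
            calc (2 : ℝ) ^ (1 / (m : ℝ)) ≤ 2 ^ (1 : ℝ) :=
                  Real.rpow_le_rpow_of_exponent_le (by norm_num)
                    (by rw [div_le_one (by linarith)]; exact hmr)
              _ = 2 := Real.rpow_one 2
          have h3 : 0 < (2 : ℝ) ^ (1 / (m : ℝ)) := by positivity
          have h4 : 0 < (H : ℝ) ^ (1 / (m : ℝ)) := by positivity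
          rw [← mul_div_assoc, le_div_iff₀ h3]
          nlinarith
        linarith
      · intro a _ b _ hab
        have h1 : ((a : ℤ)) ^ m = (b : ℤ) ^ m := hab
        have h2 : a ^ m = b ^ m := by exact_mod_cast h1
        exact Nat.pow_left_injective hm h2

/-- the lower bound. -/
theorem one_lower {n r : ℕ} (E : Finset (Fin r)) (S : Finset ℕ) (m d : Fin r → ℕ) :
    ∃ c : ℝ, 0 < c ∧ ∀ H T : ℕ, 2 ≤ H → 1 ≤ T →
      c * ((H : ℝ) ^ (∑ i, ((n + d i).choose n - 1)) * (H : ℝ) ^ (∑ i, wgt E m i)) ≤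
        Nat.card (One n E S m d H T) := by
  classical
  refine ⟨∏ i, (1 / 4 * (1 / (2 * ((n + d i).choose n : ℕ) : ℝ)) ^ ((n + d i).choose n - 1)),
    prod_pos (fun i _ => by have := one_le_N n (d i); positivity), fun H T hH hT => ?_⟩
  have hH0 : (0 : ℝ) < H := by exact_mod_cast (by omega : 0 < H)
  have hA : ∀ i : Fin r, ∃ A : Finset ℤ, (∀ a ∈ A, (if i ∈ E then a = 0 else Full S (m i) a) ∧
      2 * |a| ≤ H) ∧ 1 / 4 * (H : ℝ) ^ (wgt E m i) ≤ #A := by
    intro i
    unfold wgt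
    by_cases hi : i ∈ E
    · refine ⟨{0}, fun a ha => ?_, ?_⟩
      · rw [mem_singleton] at ha
        subst ha
        rw [if_pos hi]
        exact ⟨rfl, by simp⟩
      · rw [if_pos hi, Real.rpow_zero, card_singleton]; norm_num
    · obtain ⟨A, h1, h2⟩ := many_vals S (m i) H hH
      refine ⟨A, fun a ha => ?_, ?_⟩
      · rw [if_neg hi]; exact h1 a ha
      · rw [if_neg hi]; exact h2
  choose A hA1 hA2 using hA
  let y : Fin (n + 1) → ℤ := fun k => if k = 0 then 1 else 0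
  have hy0 : y 0 = 1 := by simp [y]
  have hy : ∀ k, |y k| ≤ 1 := by
    intro k
    simp only [y]
    split_ifs <;> simp
  have h1 : Nat.card {F : Fin r → MvPolynomial (Fin (n + 1)) ℤ | ∀ i, F i ∈
      {G | G ∈ Box n (d i) H ∧ eval y G ∈ A i}} ≤ Nat.card (One n E S m d H T) := by
    simp only [Nat.card_coe_set_eq]
    apply Set.ncard_le_ncard _ ((finite_sys n d H).subset (fun F hF => hF.1))
    intro F hF
    refine ⟨fun i => (hF i).1, y, ⟨⟨⟨Pi.single 0 1, ?_⟩, fun i hi => ?_, fun i hi => ?_⟩,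
      fun k => (hy k).trans (by exact_mod_cast hT)⟩⟩
    · rw [Finset.sum_eq_single (0 : Fin (n + 1))]
      · simp [hy0]
      · intro b _ hb; rw [Pi.single_eq_of_ne hb]; simp
      · intro h; exact absurd (mem_univ _) h
    · have := (hA1 i _ (hF i).2).1
      rw [if_pos hi] at this
      exact this
    · have := (hA1 i _ (hF i).2).1
      rw [if_neg hi] at this
      exact this
  rw [card_sys_eq] at h1
  have h2 : ((∏ i, Nat.card {G | G ∈ Box n (d i) H ∧ eval y G ∈ A i} : ℕ) : ℝ) ≤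
      (Nat.card (One n E S m d H T) : ℝ) := by exact_mod_cast h1
  refine le_trans ?_ h2
  rw [Nat.cast_prod, ← prod_pow_eq_pow_sum, Real.rpow_sum_of_pos hH0, ← prod_mul_distrib,
    ← prod_mul_distrib]
  refine prod_le_prod (fun i _ => by positivity) (fun i _ => ?_)
  rw [card_vanA]
  push_cast
  have h3 : ∀ a ∈ A i, ((H : ℝ) / (2 * ((n + d i).choose n : ℕ))) ^ ((n + d i).choose n - 1) ≤
      (Nat.card (VanV n (d i) H y a) : ℝ) :=
    fun a ha => lower_val n (d i) y 0 hy0 hy a H (hA1 i a ha).2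
  refine le_trans ?_ (sum_le_sum h3)
  rw [sum_const, nsmul_eq_mul]
  have e1 : ((H : ℝ) / (2 * ((n + d i).choose n : ℕ))) ^ ((n + d i).choose n - 1) =
      (1 / (2 * ((n + d i).choose n : ℕ) : ℝ)) ^ ((n + d i).choose n - 1) *
        (H : ℝ) ^ ((n + d i).choose n - 1) := by
    rw [← mul_pow]; congr 1; ring
  rw [e1]
  have h4 : (0 : ℝ) ≤ (1 / (2 * ((n + d i).choose n : ℕ) : ℝ)) ^ ((n + d i).choose n - 1) *
        (H : ℝ) ^ ((n + d i).choose n - 1) := by positivity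
  calc _ = (1 / 4 * (H : ℝ) ^ (wgt E m i)) *
        ((1 / (2 * ((n + d i).choose n : ℕ) : ℝ)) ^ ((n + d i).choose n - 1) *
        (H : ℝ) ^ ((n + d i).choose n - 1)) := by ring
    _ ≤ _ := mul_le_mul_of_nonneg_right (hA2 i) h4

end Pool.Agent.Q256.UC
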