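import Mathlib
import Pool.Agent.Q256.UC.Main

set_option autoImplicit false

/-!
Campana points of random C-pairs: the final theorem.
-/

namespace Pool.Agent.Q256.UC

open Finset MvPolynomial Pool.Agent.Q256.CI Pool.Agent.Q256.UP

theorem one_sub {n r : ℕ} (E : Finset (Fin r)) (S : Finset ℕ) (m d : Fin r → ℕ) (H T : ℕ) :
    One n E S m d H T ⊆ Lrg n E S m d H 0 T := by
  rintro F ⟨hF, y, hy⟩
  refine ⟨hF, y, hy, ?_⟩
  obtain ⟨a, ha⟩ := hy.1.1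
  by_contra hcon
  push Not at hcon
  have h0 : ∀ k, y k = 0 := fun k => by
    have h1 := hcon k
    have h2 := abs_nonneg (y k)
    exact abs_eq_zero.1 (by push_cast at h1; omega)
  simp [h0] at ha

theorem two_sub {n r : ℕ} (E : Finset (Fin r)) (S : Finset ℕ) (m d : Fin r → ℕ) (H R T : ℕ) :
    Two n E S m d H T ⊆ Lrg n E S m d H R T ∪ Two n E S m d H R := by
  rintro F ⟨hF, y, hy, z, hz, hne⟩
  by_cases h : ∃ k, (R : ℤ) < |y k|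
  · left; exact ⟨hF, y, hy, h⟩
  by_cases h' : ∃ k, (R : ℤ) < |z k|
  · left; exact ⟨hF, z, hz, h'⟩
  right
  push Not at h h'
  exact ⟨hF, y, ⟨hy.1, h⟩, z, ⟨hz.1, h'⟩, hne⟩

theorem lrg_finite {n r : ℕ} (E : Finset (Fin r)) (S : Finset ℕ) (m d : Fin r → ℕ) (H R T : ℕ) :
    (Lrg n E S m d H R T).Finite := (finite_sys n d H).subset (fun _ h => h.1)

theorem two_finite {n r : ℕ} (E : Finset (Fin r)) (S : Finset ℕ) (m d : Fin r → ℕ) (H T : ℕ) :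
    (Two n E S m d H T).Finite := (finite_sys n d H).subset (fun _ h => h.1)

theorem params (D g σ κ A η r : ℝ) (hD0 : 0 ≤ D) (hg0 : 0 < g) (hσ0 : 0 < σ) (hκ1 : 1 ≤ κ)
    (hA0 : 0 ≤ A) (hη : 0 < η) (hr0 : 0 ≤ r) :
    ∃ ρ ε : ℝ, 0 < ρ ∧ ρ ≤ η ∧ 2 * ρ * (κ + D) ≤ σ / 8 ∧ 0 < ε ∧ ε ≤ 1 ∧ D * ε ≤ g / 4 ∧
      r * ε ≤ ρ * g / 8 ∧ r * ε ≤ σ / 8 ∧ ε * (A * D + r) ≤ η / 2 := by
  obtain ⟨ρ, hρ0, hρη, hρσ⟩ : ∃ ρ : ℝ, 0 < ρ ∧ ρ ≤ η ∧ 2 * ρ * (κ + D) ≤ σ / 8 := by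
    refine ⟨min η (σ / (8 * (2 * (κ + D) + 1))), lt_min hη (by positivity), min_le_left _ _, ?_⟩
    have h1 : min η (σ / (8 * (2 * (κ + D) + 1))) ≤ σ / (8 * (2 * (κ + D) + 1)) := min_le_right _ _
    have h0 : 0 < min η (σ / (8 * (2 * (κ + D) + 1))) := lt_min hη (by positivity)
    rw [le_div_iff₀ (by positivity)] at h1
    nlinarith
  have key : ∀ x b : ℝ, 0 ≤ x → 0 < b → ∀ e : ℝ, 0 < e → e ≤ b / (x + 1) → x * e ≤ b := by
    intro x b hx hb e he h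
    rw [le_div_iff₀ (by positivity)] at h
    nlinarith
  have hAD : 0 ≤ A * D + r := by positivity
  refine ⟨ρ, min 1 (min (g / 4 / (D + 1)) (min (ρ * g / 8 / (r + 1)) (min (σ / 8 / (r + 1))
    (η / 2 / (A * D + r + 1))))), hρ0, hρη, hρσ, ?_⟩
  have h0 : 0 < min 1 (min (g / 4 / (D + 1)) (min (ρ * g / 8 / (r + 1)) (min (σ / 8 / (r + 1))
    (η / 2 / (A * D + r + 1))))) :=
    lt_min one_pos (lt_min (by positivity) (lt_min (by positivity)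
      (lt_min (by positivity) (by positivity))))
  refine ⟨h0, min_le_left _ _, ?_, ?_, ?_, ?_⟩
  · exact key D (g / 4) hD0 (by positivity) _ h0 ((min_le_right _ _).trans (min_le_left _ _))
  · exact key r (ρ * g / 8) hr0 (by positivity) _ h0
      ((min_le_right _ _).trans ((min_le_right _ _).trans (min_le_left _ _)))
  · exact key r (σ / 8) hr0 (by positivity) _ h0
      ((min_le_right _ _).trans ((min_le_right _ _).trans ((min_le_right _ _).trans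
        (min_le_left _ _))))
  · rw [mul_comm]
    exact key (A * D + r) (η / 2) hAD (by positivity) _ h0
      ((min_le_right _ _).trans ((min_le_right _ _).trans ((min_le_right _ _).trans
        (min_le_right _ _))))

theorem tTerm (H T κ D A η ε : ℝ) (hH1 : 1 ≤ H) (hT0 : 0 < T) (hκ1 : 1 ≤ κ) (hD0 : 0 ≤ D)
    (hAκ : A * κ = D) (hη : 0 < η) (hε0 : 0 < ε) (hTH : T ≤ H ^ (A - η)) :
    T ^ (κ + D * ε) * (H ^ D)⁻¹ ≤ H ^ (-η + A * D * ε) := by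
  have hH0 : 0 < H := by linarith
  have hDε : 0 ≤ D * ε := mul_nonneg hD0 hε0.le
  have h1 : T ^ (κ + D * ε) ≤ (H ^ (A - η)) ^ (κ + D * ε) :=
    Real.rpow_le_rpow hT0.le hTH (by linarith)
  rw [← Real.rpow_mul hH0.le] at h1
  rw [← Real.rpow_neg hH0.le]
  calc T ^ (κ + D * ε) * H ^ (-D) ≤ H ^ ((A - η) * (κ + D * ε)) * H ^ (-D) :=
        mul_le_mul_of_nonneg_right h1 (by positivity)
    _ = H ^ ((A - η) * (κ + D * ε) + -D) := (Real.rpow_add hH0 _ _).symm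
    _ ≤ _ := by
        refine Real.rpow_le_rpow_of_exponent_le hH1 ?_
        have h2 : (A - η) * (κ + D * ε) + -D = -(η * κ) + A * D * ε - η * (D * ε) := by
          rw [← hAκ]; ring
        rw [h2]
        have h3 : 0 ≤ η * (D * ε) := mul_nonneg hη.le hDε
        have h4 : η * 1 ≤ η * κ := mul_le_mul_of_nonneg_left hκ1 hη.le
        linarith

theorem lTerm (H R T κ D A η ε r ρ g δ : ℝ) (hH1 : 1 ≤ H) (hR : H ^ ρ ≤ R + 1) (hg0 : 0 < g)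
    (htt : T ^ (κ + D * ε) * (H ^ D)⁻¹ ≤ H ^ (-η + A * D * ε))
    (h3 : r * ε ≤ ρ * g / 8) (h5 : ε * (A * D + r) ≤ η / 2)
    (hδ1 : δ ≤ 3 * ρ * g / 8) (hδ2 : δ ≤ η / 2) :
    H ^ (r * ε) * ((R + 1) ^ (-(g / 2)) + T ^ (κ + D * ε) * (H ^ D)⁻¹) ≤ 2 * H ^ (-δ) := by
  have hH0 : 0 < H := by linarith
  have h1 : (R + 1) ^ (-(g / 2)) ≤ H ^ (-(ρ * (g / 2))) := by
    have h2 : (0 : ℝ) < H ^ ρ := by positivity
    calc (R + 1) ^ (-(g / 2)) ≤ (H ^ ρ) ^ (-(g / 2)) :=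
          Real.rpow_le_rpow_of_nonpos h2 hR (by linarith)
      _ = _ := by rw [← Real.rpow_mul hH0.le]; congr 1; ring
  rw [mul_add]
  have h4 : H ^ (r * ε) * (R + 1) ^ (-(g / 2)) ≤ H ^ (-δ) := by
    calc H ^ (r * ε) * (R + 1) ^ (-(g / 2)) ≤ H ^ (r * ε) * H ^ (-(ρ * (g / 2))) :=
          mul_le_mul_of_nonneg_left h1 (by positivity)
      _ = H ^ (r * ε + -(ρ * (g / 2))) := (Real.rpow_add hH0 _ _).symm
      _ ≤ _ := Real.rpow_le_rpow_of_exponent_le hH1 (by linarith)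
  have h6 : H ^ (r * ε) * (T ^ (κ + D * ε) * (H ^ D)⁻¹) ≤ H ^ (-δ) := by
    calc _ ≤ H ^ (r * ε) * H ^ (-η + A * D * ε) :=
          mul_le_mul_of_nonneg_left htt (by positivity)
      _ = H ^ (r * ε + (-η + A * D * ε)) := (Real.rpow_add hH0 _ _).symm
      _ ≤ _ := Real.rpow_le_rpow_of_exponent_le hH1 (by
          have : ε * (A * D + r) = A * D * ε + r * ε := by ring
          linarith)
  linarith

theorem wTerm (H R κ D ε r ρ w σ δ : ℝ) (hH1 : 1 ≤ H) (hR0 : 0 ≤ R) (hR : R ≤ H ^ ρ)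
    (hρ0 : 0 < ρ) (hκ1 : 1 ≤ κ) (hD0 : 0 ≤ D) (hε0 : 0 < ε) (hε1 : ε ≤ 1) (hσw : σ = r - w)
    (hσ0 : 0 < σ) (h4 : r * ε ≤ σ / 8) (h2 : 2 * ρ * (κ + D) ≤ σ / 8) (hδ3 : δ ≤ σ / 2) :
    H ^ (-r) * (H ^ (w + r * ε) * R ^ (κ + D * ε)) ^ 2 ≤ H ^ w * H ^ (-δ) := by
  have hH0 : 0 < H := by linarith
  have hDε : 0 ≤ D * ε := mul_nonneg hD0 hε0.le
  have h6 : R ^ (κ + D * ε) ≤ H ^ (ρ * (κ + D)) := by
    calc R ^ (κ + D * ε) ≤ (H ^ ρ) ^ (κ + D * ε) :=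
          Real.rpow_le_rpow hR0 hR (by linarith)
      _ = H ^ (ρ * (κ + D * ε)) := (Real.rpow_mul hH0.le _ _).symm
      _ ≤ _ := by
          refine Real.rpow_le_rpow_of_exponent_le hH1 ?_
          refine mul_le_mul_of_nonneg_left ?_ hρ0.le
          have : D * ε ≤ D * 1 := mul_le_mul_of_nonneg_left hε1 hD0
          linarith
  have h7 : (H ^ (w + r * ε) * R ^ (κ + D * ε)) ^ 2 ≤ H ^ (2 * (w + r * ε + ρ * (κ + D))) := by
    calc (H ^ (w + r * ε) * R ^ (κ + D * ε)) ^ 2 ≤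
          (H ^ (w + r * ε) * H ^ (ρ * (κ + D))) ^ 2 := by
          refine pow_le_pow_left₀ ?_ (mul_le_mul_of_nonneg_left h6 (by positivity)) 2
          exact mul_nonneg (by positivity) (Real.rpow_nonneg hR0 _)
      _ = _ := by
          rw [← Real.rpow_add hH0, ← Real.rpow_natCast _ 2, ← Real.rpow_mul hH0.le]
          congr 1
          push_cast
          ring
  calc H ^ (-r) * (H ^ (w + r * ε) * R ^ (κ + D * ε)) ^ 2 ≤
        H ^ (-r) * H ^ (2 * (w + r * ε + ρ * (κ + D))) :=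
        mul_le_mul_of_nonneg_left h7 (by positivity)
    _ = H ^ w * H ^ (-r + w + 2 * (r * ε) + 2 * ρ * (κ + D)) := by
        rw [← Real.rpow_add hH0, ← Real.rpow_add hH0]
        congr 1
        ring
    _ ≤ H ^ w * H ^ (-δ) := by
        refine mul_le_mul_of_nonneg_left ?_ (by positivity)
        exact Real.rpow_le_rpow_of_exponent_le hH1 (by linarith)

/-- The final assembly with real numbers. -/
theorem assemble (H T D w σ κ A g η ρ ε δ r C1 C2 c M0 O : ℝ) (Two2 : ℝ) (Lr Tw : ℕ → ℝ)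
    (hH : 2 ≤ H) (hT : 1 ≤ T) (hD0 : 0 ≤ D) (hσw : σ = r - w) (hσ0 : 0 < σ) (hκ1 : 1 ≤ κ) (hg0 : 0 < g)
    (hAκ : A * κ = D) (hA0 : 0 ≤ A) (hη : 0 < η) (hρ0 : 0 < ρ) (hρη : ρ ≤ η)
    (hr0 : 0 ≤ r)
    (hρσ : 2 * ρ * (κ + D) ≤ σ / 8) (hε0 : 0 < ε) (hε1 : ε ≤ 1) (hε3 : r * ε ≤ ρ * g / 8)
    (hε4 : r * ε ≤ σ / 8) (hε5 : ε * (A * D + r) ≤ η / 2) (hδ1 : δ ≤ 3 * ρ * g / 8)
    (hδ2 : δ ≤ η / 2) (hδ3 : δ ≤ σ / 2) (hC1 : 0 < C1) (hC2 : 0 < C2) (hc : 0 < c)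
    (hM0 : 0 < M0) (hTH : T ≤ H ^ (A - η)) (hO0 : 0 ≤ O)
    (hlow : c * (M0 * H ^ w) ≤ O)
    (hlrg : ∀ R : ℕ, Lr R ≤ C1 * (M0 * H ^ (w + r * ε)) * (((R : ℝ) + 1) ^ (-(g / 2)) +
      T ^ (κ + D * ε) * (H ^ D)⁻¹))
    (htw : ∀ R : ℕ, 1 ≤ R → Tw R ≤ C2 * (M0 * H ^ (-r)) *
      (H ^ (w + r * ε) * (R : ℝ) ^ (κ + D * ε)) ^ 2)
    (hone : O ≤ Lr 0) (htwo : ∀ R : ℕ, Two2 ≤ Lr R + Tw R) :
    M0 * H ^ w ≤ (1 / c + 2 * C1 + (2 * C1 + C2) / c) * O ∧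
    O ≤ (1 / c + 2 * C1 + (2 * C1 + C2) / c) * (M0 * H ^ w * H ^ η) ∧
    Two2 ≤ (1 / c + 2 * C1 + (2 * C1 + C2) / c) * H ^ (-δ) * O ∧
    ∀ R : ℕ, H ^ η ≤ R + 1 → Lr R ≤ (1 / c + 2 * C1 + (2 * C1 + C2) / c) * H ^ (-δ) * O := by
  have hH1 : 1 ≤ H := by linarith
  have hH0 : 0 < H := by linarith
  have hT0 : 0 < T := by linarith
  have hww : 0 < H ^ w := by positivity
  have hP0 : 0 < M0 * H ^ w := mul_pos hM0 hww
  have hHδ : 0 < H ^ (-δ) := by positivity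
  have htt := tTerm H T κ D A η ε hH1 hT0 hκ1 hD0 hAκ hη hε0 hTH
  have hO1 : M0 * H ^ w ≤ 1 / c * O := by
    rw [one_div, ← div_eq_inv_mul, le_div_iff₀ hc, mul_comm]
    exact hlow
  have hsplit : H ^ (w + r * ε) = H ^ w * H ^ (r * ε) := Real.rpow_add hH0 _ _
  have hL : ∀ R : ℕ, H ^ ρ ≤ R + 1 → Lr R ≤ 2 * C1 * (M0 * H ^ w) * H ^ (-δ) := by
    intro R hR
    refine (hlrg R).trans ?_
    have h3 := lTerm H R T κ D A η ε r ρ g δ hH1 hR hg0 htt hε3 hε5 hδ1 hδ2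
    rw [hsplit]
    calc C1 * (M0 * (H ^ w * H ^ (r * ε))) * (((R : ℝ) + 1) ^ (-(g / 2)) +
          T ^ (κ + D * ε) * (H ^ D)⁻¹)
        = C1 * (M0 * H ^ w) * (H ^ (r * ε) * (((R : ℝ) + 1) ^ (-(g / 2)) +
          T ^ (κ + D * ε) * (H ^ D)⁻¹)) := by ring
      _ ≤ C1 * (M0 * H ^ w) * (2 * H ^ (-δ)) :=
          mul_le_mul_of_nonneg_left h3 (mul_nonneg hC1.le hP0.le)
      _ = _ := by ring
  have hc1 : 0 ≤ 1 / c := by positivity
  have hc2 : 0 ≤ (2 * C1 + C2) / c := by positivity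
  refine ⟨?_, ?_, ?_, ?_⟩
  · exact hO1.trans (mul_le_mul_of_nonneg_right (by linarith) hO0)
  · refine hone.trans ((hlrg 0).trans ?_)
    rw [hsplit]
    have hADr : ε * (A * D + r) = A * D * ε + r * ε := by ring
    have hrε : 0 ≤ r * ε := mul_nonneg hr0 hε0.le
    have hAD : 0 ≤ A * D * ε := mul_nonneg (mul_nonneg hA0 hD0) hε0.le
    have h3 : T ^ (κ + D * ε) * (H ^ D)⁻¹ ≤ 1 := by
      refine htt.trans ?_
      exact Real.rpow_le_one_of_one_le_of_nonpos hH1 (by linarith)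
    have h4 : H ^ (r * ε) ≤ H ^ η := Real.rpow_le_rpow_of_exponent_le hH1 (by linarith)
    have h5 : (((0 : ℕ) : ℝ) + 1) ^ (-(g / 2)) = 1 := by
      rw [Nat.cast_zero, zero_add, Real.one_rpow]
    rw [h5]
    have hT' : 0 < T ^ (κ + D * ε) := Real.rpow_pos_of_pos hT0 _
    have hD' : 0 < (H ^ D)⁻¹ := by positivity
    have hTD := mul_pos hT' hD'
    calc C1 * (M0 * (H ^ w * H ^ (r * ε))) * (1 + T ^ (κ + D * ε) * (H ^ D)⁻¹) ≤
          C1 * (M0 * (H ^ w * H ^ η)) * (1 + 1) := by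
          refine mul_le_mul ?_ (by linarith) (by linarith) (by positivity)
          exact mul_le_mul_of_nonneg_left (mul_le_mul_of_nonneg_left
            (mul_le_mul_of_nonneg_left h4 hww.le) hM0.le) hC1.le
      _ = 2 * C1 * (M0 * H ^ w * H ^ η) := by ring
      _ ≤ _ := mul_le_mul_of_nonneg_right (by linarith) (by positivity)
  · obtain ⟨R, hR⟩ : ∃ R : ℕ, R = ⌊H ^ ρ⌋₊ := ⟨_, rfl⟩
    have hHρ : 1 ≤ H ^ ρ := Real.one_le_rpow hH1 hρ0.le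
    have hR1 : (R : ℝ) ≤ H ^ ρ := by rw [hR]; exact Nat.floor_le (by positivity)
    have hR2 : H ^ ρ < R + 1 := by rw [hR]; exact Nat.lt_floor_add_one _
    have hR3 : 1 ≤ R := by rw [hR]; exact Nat.le_floor (by exact_mod_cast hHρ)
    have h2 := hL R hR2.le
    have h6 := wTerm H R κ D ε r ρ w σ δ hH1 (Nat.cast_nonneg _) hR1 hρ0 hκ1 hD0 hε0 hε1 hσw
      hσ0 hε4 hρσ hδ3
    have h3 : Tw R ≤ C2 * (M0 * H ^ w) * H ^ (-δ) := by
      refine (htw R hR3).trans ?_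
      calc C2 * (M0 * H ^ (-r)) * (H ^ (w + r * ε) * (R : ℝ) ^ (κ + D * ε)) ^ 2 =
            C2 * M0 * (H ^ (-r) * (H ^ (w + r * ε) * (R : ℝ) ^ (κ + D * ε)) ^ 2) := by ring
        _ ≤ C2 * M0 * (H ^ w * H ^ (-δ)) :=
            mul_le_mul_of_nonneg_left h6 (mul_nonneg hC2.le hM0.le)
        _ = _ := by ring
    calc Two2 ≤ 2 * C1 * (M0 * H ^ w) * H ^ (-δ) + C2 * (M0 * H ^ w) * H ^ (-δ) :=
          (htwo R).trans (add_le_add h2 h3)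
      _ = (2 * C1 + C2) * H ^ (-δ) * (M0 * H ^ w) := by ring
      _ ≤ (2 * C1 + C2) * H ^ (-δ) * (1 / c * O) :=
          mul_le_mul_of_nonneg_left hO1 (by positivity)
      _ = (2 * C1 + C2) / c * H ^ (-δ) * O := by ring
      _ ≤ _ := mul_le_mul_of_nonneg_right
          (mul_le_mul_of_nonneg_right (by linarith) hHδ.le) hO0
  · intro R hR
    have hHρ : H ^ ρ ≤ R + 1 := by
      have h1 : H ^ ρ ≤ H ^ η := Real.rpow_le_rpow_of_exponent_le hH1 hρη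
      linarith
    calc Lr R ≤ 2 * C1 * (M0 * H ^ w) * H ^ (-δ) := hL R hHρ
      _ = 2 * C1 * H ^ (-δ) * (M0 * H ^ w) := by ring
      _ ≤ 2 * C1 * H ^ (-δ) * (1 / c * O) := mul_le_mul_of_nonneg_left hO1 (by positivity)
      _ = 2 * C1 / c * H ^ (-δ) * O := by ring
      _ ≤ _ := by
          refine mul_le_mul_of_nonneg_right (mul_le_mul_of_nonneg_right ?_ hHδ.le) hO0
          have h2 : 2 * C1 / c ≤ (2 * C1 + C2) / c :=
            div_le_div_of_nonneg_right (by linarith) hc.le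
          linarith

theorem powM {n r : ℕ} (m d : Fin r → ℕ) (E : Finset (Fin r)) (H : ℝ) (hH0 : 0 < H) :
    H ^ (∑ i, ((n + d i).choose n : ℝ) - ∑ i, (1 - wgt E m i)) =
      H ^ (∑ i, ((n + d i).choose n - 1)) * H ^ (∑ i, wgt E m i) := by
  rw [← Real.rpow_natCast H (∑ i, ((n + d i).choose n - 1)), ← Real.rpow_add hH0]
  congr 1
  push_cast
  have h2 : ∀ i : Fin r, (((n + d i).choose n - 1 : ℕ) : ℝ) = ((n + d i).choose n : ℝ) - 1 := by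
    intro i
    rw [Nat.cast_sub (one_le_N n (d i)), Nat.cast_one]
  simp_rw [h2]
  rw [sum_sub_distrib, sum_sub_distrib]
  ring

/-- **The main theorem.** -/
theorem final {n r : ℕ} (E : Finset (Fin r)) (S : Finset ℕ) (m d : Fin r → ℕ)
    (hd : ∀ i, 1 ≤ d i) (hgt : (n : ℝ) + 1 < ∑ i, (1 - wgt E m i) * d i) (η : ℝ) (hη : 0 < η) :
    ∃ δ C : ℝ, 0 < δ ∧ 0 < C ∧ ∀ H T : ℕ, 2 ≤ H → 1 ≤ T →
      (T : ℝ) ≤ (H : ℝ) ^ ((∑ i, (d i : ℝ)) / (n + 1 + ∑ i, (d i : ℝ) * wgt E m i) - η) →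
      (H : ℝ) ^ (∑ i, ((n + d i).choose n : ℝ) - ∑ i, (1 - wgt E m i)) ≤
        C * Nat.card (One n E S m d H T) ∧
      (Nat.card (One n E S m d H T) : ℝ) ≤
        C * (H : ℝ) ^ (∑ i, ((n + d i).choose n : ℝ) - ∑ i, (1 - wgt E m i) + η) ∧
      (Nat.card (Two n E S m d H T) : ℝ) ≤
        C * (H : ℝ) ^ (-δ) * Nat.card (One n E S m d H T) ∧
      ∀ R : ℕ, (H : ℝ) ^ η ≤ R + 1 → (Nat.card (Lrg n E S m d H R T) : ℝ) ≤
        C * (H : ℝ) ^ (-δ) * Nat.card (One n E S m d H T) := by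
  classical
  have hW0 : 0 ≤ ∑ i, (d i : ℝ) * wgt E m i :=
    sum_nonneg (fun i _ => mul_nonneg (Nat.cast_nonneg _) (wgt_nonneg E m i))
  have hD0 : 0 ≤ ∑ i, (d i : ℝ) := sum_nonneg (fun i _ => Nat.cast_nonneg _)
  have hr0 : (0 : ℝ) ≤ r := Nat.cast_nonneg _
  have hn0 : (0 : ℝ) ≤ n := Nat.cast_nonneg _
  have hsum : ∑ i, (1 - wgt E m i) * d i = ∑ i, (d i : ℝ) - ∑ i, (d i : ℝ) * wgt E m i := by
    rw [← sum_sub_distrib]
    exact sum_congr rfl (fun i _ => by ring)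
  have hg0 : 0 < ∑ i, (d i : ℝ) - (n + 1) - ∑ i, (d i : ℝ) * wgt E m i := by
    rw [hsum] at hgt; linarith
  have hσw : ∑ i, (1 - wgt E m i) = r - ∑ i, wgt E m i := by
    rw [sum_sub_distrib, sum_const, card_univ, Fintype.card_fin, nsmul_eq_mul, mul_one]
  have hσ0 : 0 < ∑ i, (1 - wgt E m i) := by
    by_contra hcon
    push Not at hcon
    have hnn : ∀ i ∈ (univ : Finset (Fin r)), 0 ≤ 1 - wgt E m i := fun i _ => by
      have := wgt_le_one E m i; linarith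
    have h0 := (sum_eq_zero_iff_of_nonneg hnn).1 (le_antisymm hcon (sum_nonneg hnn))
    have h1 : ∑ i, (1 - wgt E m i) * (d i : ℝ) = 0 :=
      sum_eq_zero (fun i hi => by rw [h0 i hi, zero_mul])
    rw [h1] at hgt
    linarith
  have hκ1 : 1 ≤ (n : ℝ) + 1 + ∑ i, (d i : ℝ) * wgt E m i := by linarith
  have hA0 : 0 ≤ (∑ i, (d i : ℝ)) / (n + 1 + ∑ i, (d i : ℝ) * wgt E m i) :=
    div_nonneg hD0 (by linarith)
  have hAκ : (∑ i, (d i : ℝ)) / (n + 1 + ∑ i, (d i : ℝ) * wgt E m i) *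
      (n + 1 + ∑ i, (d i : ℝ) * wgt E m i) = ∑ i, (d i : ℝ) :=
    div_mul_cancel₀ _ (by linarith)
  obtain ⟨ρ, ε, hρ0, hρη, hρσ, hε0, hε1, hε2, hε3, hε4, hε5⟩ :=
    params (∑ i, (d i : ℝ)) (∑ i, (d i : ℝ) - (n + 1) - ∑ i, (d i : ℝ) * wgt E m i)
      (∑ i, (1 - wgt E m i)) ((n : ℝ) + 1 + ∑ i, (d i : ℝ) * wgt E m i)
      ((∑ i, (d i : ℝ)) / (n + 1 + ∑ i, (d i : ℝ) * wgt E m i)) η r hD0 hg0 hσ0 hκ1 hA0 hη hr0
  obtain ⟨c, hc, hlow⟩ := one_lower (n := n) E S m d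
  obtain ⟨C1, hC1, hlrg⟩ := lrg_bound (n := n) E S m d _ ε hg0 hε0 rfl hε2
  obtain ⟨C2, hC2, htwo⟩ := two_small (n := n) E S m d hd ε hε0
  obtain ⟨δ, hδ0, hδ1, hδ2, hδ3⟩ : ∃ δ : ℝ, 0 < δ ∧
      δ ≤ 3 * ρ * (∑ i, (d i : ℝ) - (n + 1) - ∑ i, (d i : ℝ) * wgt E m i) / 8 ∧ δ ≤ η / 2 ∧
      δ ≤ (∑ i, (1 - wgt E m i)) / 2 :=
    ⟨min (3 * ρ * (∑ i, (d i : ℝ) - (n + 1) - ∑ i, (d i : ℝ) * wgt E m i) / 8)
      (min (η / 2) ((∑ i, (1 - wgt E m i)) / 2)),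
      lt_min (by positivity) (lt_min (by positivity) (by positivity)), min_le_left _ _,
      (min_le_right _ _).trans (min_le_left _ _), (min_le_right _ _).trans (min_le_right _ _)⟩
  refine ⟨δ, 1 / c + 2 * C1 + (2 * C1 + C2) / c, hδ0, by positivity, fun H T hH hT hTH => ?_⟩
  have hHr : (2 : ℝ) ≤ H := by exact_mod_cast hH
  have hH0 : (0 : ℝ) < H := by linarith
  have hT1 : (1 : ℝ) ≤ T := by exact_mod_cast hT
  rw [Real.rpow_add hH0 _ η, powM m d E (H : ℝ) hH0]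
  refine assemble (H : ℝ) T (∑ i, (d i : ℝ)) (∑ i, wgt E m i)
    (∑ i, (1 - wgt E m i)) ((n : ℝ) + 1 + ∑ i, (d i : ℝ) * wgt E m i)
    ((∑ i, (d i : ℝ)) / (n + 1 + ∑ i, (d i : ℝ) * wgt E m i))
    (∑ i, (d i : ℝ) - (n + 1) - ∑ i, (d i : ℝ) * wgt E m i) η ρ ε δ r C1 C2 c
    ((H : ℝ) ^ (∑ i, ((n + d i).choose n - 1))) (Nat.card (One n E S m d H T))
    (Nat.card (Two n E S m d H T)) (fun R => (Nat.card (Lrg n E S m d H R T) : ℝ))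
    (fun R => (Nat.card (Two n E S m d H R) : ℝ)) hHr hT1 hD0 hσw hσ0 hκ1 hg0 hAκ hA0 hη hρ0 hρη hr0
    hρσ hε0 hε1 hε3 hε4 hε5 hδ1 hδ2 hδ3 hC1 hC2 hc (by positivity) hTH (Nat.cast_nonneg _)
    ?_ ?_ ?_ ?_ ?_
  · exact hlow H T hH hT
  · intro R
    exact hlrg H R T (by omega)
  · intro R hR
    have h6 : ((H : ℝ) ^ r)⁻¹ = (H : ℝ) ^ (-(r : ℝ)) := by
      rw [Real.rpow_neg hH0.le, Real.rpow_natCast]
    have h7 := htwo H R (by omega) hR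
    rw [h6] at h7
    exact h7
  · simp only [Nat.card_coe_set_eq]
    exact_mod_cast Set.ncard_le_ncard (one_sub E S m d H T) (lrg_finite E S m d H 0 T)
  · intro R
    simp only [Nat.card_coe_set_eq]
    have h2 := Set.ncard_le_ncard (two_sub (n := n) E S m d H R T)
      ((lrg_finite E S m d H R T).union (two_finite E S m d H R))
    exact_mod_cast h2.trans (Set.ncard_union_le _ _)

end Pool.Agent.Q256.UC
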